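import Pool.Agent.H57.PS

set_option autoImplicit false

namespace Pool.Agent.Results.MP_2087e7_lc.UnderCH

open Pool.Agent.H57.PS

/-- Under the continuum hypothesis the perfect Polish space `2^N x 2^N` contains a countably
perfectly meager, universally null set that is not countably perfectly null. -/
theorem result (hCH : Cardinal.continuum.{0} = Cardinal.aleph 1) :
    PolishSpace ((ℕ → Bool) × (ℕ → Bool)) ∧ PerfectSpace ((ℕ → Bool) × (ℕ → Bool)) ∧
      BorelSpace ((ℕ → Bool) × (ℕ → Bool)) ∧
      ∃ A : Set ((ℕ → Bool) × (ℕ → Bool)), PMSigma A ∧ UN A ∧ ¬ PNSigma A :=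
  ⟨{}, perfect_space, inferInstance, main hCH⟩

end Pool.Agent.Results.MP_2087e7_lc.UnderCH
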